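import Mathlib
import Pool.Agent.H94.FF5

set_option autoImplicit false

namespace Pool.Agent.Results.MP_3f6bc3_an.NoEquilibrium

open Set Filter Topology Complex

theorem result : ∃ (x : ℕ → EuclideanSpace ℝ (Fin 2)) (a : ℕ → ℝ),
    Function.Injective x ∧ Tendsto (fun k => ‖x k‖) atTop atTop ∧ (∀ k, x k ≠ 0) ∧
    (∀ k, 0 < a k) ∧ Summable (fun k => a k / ‖x k‖) ∧
    ∀ z ∉ range x, ∃ F : EuclideanSpace ℝ (Fin 2), F ≠ 0 ∧
      HasSum (fun k => (a k / ‖z - x k‖ ^ 2) • (x k - z)) F := by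
  obtain ⟨A, h0, h1, h2, h3, h4, h5⟩ := Pool.Agent.H94.FF.cplx
  have hc : {x | A x ≠ 0}.Countable := by
    refine (countable_iUnion fun n : ℕ => (h2 n).countable).mono fun x hx => ?_
    exact mem_iUnion.2 ⟨⌈‖x‖⌉₊, hx, Nat.le_ceil _⟩
  obtain ⟨d⟩ := countable_infinite_iff_nonempty_denumerable.1 ⟨hc, h4⟩
  set g : ℕ → ℂ := fun k => ((Denumerable.eqv {x | A x ≠ 0}).symm k : ℂ) with hg
  have gi : Function.Injective g := Subtype.val_injective.comp (Equiv.injective _)
  have gm : ∀ k, A (g k) ≠ 0 := fun k => ((Denumerable.eqv {x | A x ≠ 0}).symm k).2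
  have gr : ∀ x ∉ range g, A x = 0 := fun x hx => by_contra fun h =>
    hx ⟨Denumerable.eqv {x | A x ≠ 0} ⟨x, h⟩, by simp [hg]⟩
  set L := orthonormalBasisOneI.repr
  refine ⟨fun k => L (g k), fun k => A (g k), L.injective.comp gi, ?_, fun k h => ?_,
    fun k => (h0 _).lt_of_ne' (gm k), ?_, fun z hz => ?_⟩
  · rw [← Nat.cofinite_eq_atTop]
    refine tendsto_atTop.2 fun r => ?_
    refine ((h2 r).preimage gi.injOn).subset fun k hk => ⟨gm k, ?_⟩
    have hk' : ¬ r ≤ ‖L (g k)‖ := hk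
    simpa using le_of_lt (not_le.1 hk')
  · exact gm k (by rw [L.map_eq_zero_iff.1 h, h1])
  · simpa [Function.comp_def] using (gi.summable_iff fun x hx => by simp [gr x hx]).2 h3
  · obtain ⟨w, rfl⟩ := L.surjective z
    obtain ⟨F, hF, hs⟩ := h5 w (gr w fun ⟨k, hk⟩ => hz ⟨k, by rw [← hk]⟩)
    have h6 := (gi.hasSum_iff fun x hx => by simp [gr x hx]).2 hs
    refine ⟨L (conjLIE F), by simpa using hF,
      (h6.mapL (conjLIE.trans L).toLinearIsometry.toContinuousLinearMap).congr_fun fun k => ?_⟩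
    rw [← map_sub, ← map_sub, L.norm_map, ← map_smul]
    refine congrArg L ?_
    rw [norm_sub_rev, ← normSq_eq_norm_sq]
    simp only [Function.comp_apply, div_eq_mul_inv, inv_def (g k - w), real_smul]
    simp; ring

end Pool.Agent.Results.MP_3f6bc3_an.NoEquilibrium
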